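import Pool.Agent.Helper72_ABCT.CtxM

/-!
# CTXF: facets in contexts (MP_a17fcb_ag, part E)
-/

namespace ABCT.H72

open ABCT Net

theorem mem_dsum {S T : Net} {I : Finset ℕ} :
    I ∈ (Net.dsum S T).M ↔ ∃ A ∈ S.M, ∃ B ∈ T.M, A ∪ B = I := by
  show I ∈ (S.M ×ˢ T.M).image (fun p => p.1 ∪ p.2) ↔ _
  simp only [Finset.mem_image, Finset.mem_product, Prod.exists]
  constructor
  · rintro ⟨A, B, ⟨h1, h2⟩, h3⟩
    exact ⟨A, h1, B, h2, h3⟩
  · rintro ⟨A, h1, B, h2, h3⟩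
    exact ⟨A, B, ⟨h1, h2⟩, h3⟩

theorem mem_tsum {S T : Net} {q : ℕ} {I : Finset ℕ} :
    I ∈ (Net.tsum S T q).M ↔ ∃ A ∈ S.M, ∃ B ∈ T.M,
      ((q ∈ A ∧ q ∉ B) ∨ (q ∉ A ∧ q ∈ B)) ∧ (A ∪ B).erase q = I := by
  show I ∈ ((S.M ×ˢ T.M).filter fun p => (q ∈ p.1 ∧ q ∉ p.2) ∨ (q ∉ p.1 ∧ q ∈ p.2)).image
      (fun p => (p.1 ∪ p.2).erase q) ↔ _
  simp only [Finset.mem_image, Finset.mem_filter, Finset.mem_product, Prod.exists]
  constructor
  · rintro ⟨A, B, ⟨⟨h1, h2⟩, h4⟩, h3⟩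
    exact ⟨A, h1, B, h2, h4, h3⟩
  · rintro ⟨A, h1, B, h2, h4, h3⟩
    exact ⟨A, B, ⟨⟨h1, h2⟩, h4⟩, h3⟩

theorem dsum_comm_M (S T : Net) : (Net.dsum S T).M = (Net.dsum T S).M := by
  ext I
  rw [mem_dsum, mem_dsum]
  constructor
  · rintro ⟨A, hA, B, hB, h⟩
    exact ⟨B, hB, A, hA, by rw [Finset.union_comm, h]⟩
  · rintro ⟨A, hA, B, hB, h⟩
    exact ⟨B, hB, A, hA, by rw [Finset.union_comm, h]⟩

theorem tsum_comm_M (S T : Net) (q : ℕ) : (Net.tsum S T q).M = (Net.tsum T S q).M := by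
  ext I
  rw [mem_tsum, mem_tsum]
  constructor
  · rintro ⟨A, hA, B, hB, hq, h⟩
    exact ⟨B, hB, A, hA, hq.elim (fun h => Or.inr ⟨h.2, h.1⟩) (fun h => Or.inl ⟨h.2, h.1⟩),
      by rw [Finset.union_comm, h]⟩
  · rintro ⟨A, hA, B, hB, hq, h⟩
    exact ⟨B, hB, A, hA, hq.elim (fun h => Or.inr ⟨h.2, h.1⟩) (fun h => Or.inl ⟨h.2, h.1⟩),
      by rw [Finset.union_comm, h]⟩

/-- aliveness is kept in direct sums -/
theorem dsum_alive {S S' T : Net} (hne : S'.M.Nonempty) (hE' : ∀ I ∈ S'.M, I ⊆ S.E)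
    (hE : ∀ I ∈ S.M, I ⊆ S.E) (hT : ∀ I ∈ T.M, I ⊆ T.E) (hd : Disjoint S.E T.E)
    (hal : ∀ x, S.Alive x → S'.Alive x) (x : ℕ) (hx : (Net.dsum S T).Alive x) :
    (Net.dsum S' T).Alive x := by
  obtain ⟨⟨I, hI, hxI⟩, ⟨J, hJ, hxJ⟩⟩ := hx
  obtain ⟨A, hA, B, hB, rfl⟩ := mem_dsum.1 hI
  obtain ⟨A', hA', B', hB', rfl⟩ := mem_dsum.1 hJ
  rw [Finset.mem_union, not_or] at hxJ
  rcases Finset.mem_union.1 hxI with h | h
  · have hxS : x ∈ S.E := hE A hA h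
    have hxT : x ∉ T.E := fun h' => (Finset.disjoint_left.1 hd) hxS h'
    obtain ⟨⟨A1, hA1, hx1⟩, ⟨A2, hA2, hx2⟩⟩ := hal x ⟨⟨A, hA, h⟩, ⟨A', hA', hxJ.1⟩⟩
    refine ⟨⟨A1 ∪ B, mem_dsum.2 ⟨A1, hA1, B, hB, rfl⟩, Finset.mem_union_left _ hx1⟩,
      ⟨A2 ∪ B, mem_dsum.2 ⟨A2, hA2, B, hB, rfl⟩, ?_⟩⟩
    rw [Finset.mem_union, not_or]
    exact ⟨hx2, fun h' => hxT (hT B hB h')⟩
  · have hxT : x ∈ T.E := hT B hB h
    have hxS : x ∉ S.E := fun h' => (Finset.disjoint_left.1 hd) h' hxT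
    obtain ⟨A1, hA1⟩ := hne
    refine ⟨⟨A1 ∪ B, mem_dsum.2 ⟨A1, hA1, B, hB, rfl⟩, Finset.mem_union_right _ h⟩,
      ⟨A1 ∪ B', mem_dsum.2 ⟨A1, hA1, B', hB', rfl⟩, ?_⟩⟩
    rw [Finset.mem_union, not_or]
    exact ⟨fun h' => hxS (hE' A1 hA1 h'), hxJ.2⟩

/-- aliveness is kept in 2-sums -/
theorem tsum_alive {S S' T : Net} {q : ℕ} (hne : S'.M.Nonempty) (hneT : T.M.Nonempty)
    (hsub : S'.M ⊆ S.M)
    (hE : ∀ I ∈ S.M, I ⊆ S.E) (hT : ∀ I ∈ T.M, I ⊆ T.E)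
    (hd : Disjoint (S.E.erase q) (T.E.erase q))
    (hq : (S.Alive q ∧ T.Alive q) ∨ (S.Loop q ∧ T.Coloop q) ∨ (S.Coloop q ∧ T.Loop q))
    (hal : ∀ x, S.Alive x → S'.Alive x) (x : ℕ) (hx : (Net.tsum S T q).Alive x) :
    (Net.tsum S' T q).Alive x := by
  -- partners
  have pS : ∀ A ∈ S'.M, ∃ B ∈ T.M, (q ∈ A ∧ q ∉ B) ∨ (q ∉ A ∧ q ∈ B) := by
    intro A hA
    rcases hq with h | h | h
    · obtain ⟨⟨B, hB, h1⟩, ⟨B', hB', h2⟩⟩ := h.2
      by_cases hqA : q ∈ A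
      · exact ⟨B', hB', Or.inl ⟨hqA, h2⟩⟩
      · exact ⟨B, hB, Or.inr ⟨hqA, h1⟩⟩
    · obtain ⟨B, hB⟩ := hneT
      exact ⟨B, hB, Or.inr ⟨h.1 A (hsub hA), h.2 B hB⟩⟩
    · obtain ⟨B, hB⟩ := hneT
      exact ⟨B, hB, Or.inl ⟨h.1 A (hsub hA), h.2 B hB⟩⟩
  have pT : ∀ B ∈ T.M, ∃ A ∈ S'.M, (q ∈ A ∧ q ∉ B) ∨ (q ∉ A ∧ q ∈ B) := by
    intro B hB
    rcases hq with h | h | h
    · obtain ⟨⟨A, hA, h1⟩, ⟨A', hA', h2⟩⟩ := hal q h.1
      by_cases hqB : q ∈ B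
      · exact ⟨A', hA', Or.inr ⟨h2, hqB⟩⟩
      · exact ⟨A, hA, Or.inl ⟨h1, hqB⟩⟩
    · obtain ⟨A, hA⟩ := hne
      exact ⟨A, hA, Or.inr ⟨h.1 A (hsub hA), h.2 B hB⟩⟩
    · obtain ⟨A, hA⟩ := hne
      exact ⟨A, hA, Or.inl ⟨h.1 A (hsub hA), h.2 B hB⟩⟩
  obtain ⟨⟨I, hI, hxI⟩, ⟨J, hJ, hxJ⟩⟩ := hx
  obtain ⟨A, hA, B, hB, hAB, rfl⟩ := mem_tsum.1 hI
  obtain ⟨A', hA', B', hB', hAB', rfl⟩ := mem_tsum.1 hJ
  have hxq : x ≠ q := (Finset.mem_erase.1 hxI).1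
  have hxJ' : x ∉ A' ∪ B' := fun h => hxJ (Finset.mem_erase.2 ⟨hxq, h⟩)
  rw [Finset.mem_union, not_or] at hxJ'
  rcases Finset.mem_union.1 (Finset.mem_erase.1 hxI).2 with h | h
  · have hxS : x ∈ S.E.erase q := Finset.mem_erase.2 ⟨hxq, hE A hA h⟩
    have hxT : x ∉ T.E := fun h' =>
      (Finset.disjoint_left.1 hd) hxS (Finset.mem_erase.2 ⟨hxq, h'⟩)
    obtain ⟨⟨A1, hA1, hx1⟩, ⟨A2, hA2, hx2⟩⟩ := hal x ⟨⟨A, hA, h⟩, ⟨A', hA', hxJ'.1⟩⟩
    obtain ⟨B1, hB1, hq1⟩ := pS A1 hA1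
    obtain ⟨B2, hB2, hq2⟩ := pS A2 hA2
    refine ⟨⟨(A1 ∪ B1).erase q, mem_tsum.2 ⟨A1, hA1, B1, hB1, hq1, rfl⟩,
      Finset.mem_erase.2 ⟨hxq, Finset.mem_union_left _ hx1⟩⟩,
      ⟨(A2 ∪ B2).erase q, mem_tsum.2 ⟨A2, hA2, B2, hB2, hq2, rfl⟩, ?_⟩⟩
    rw [Finset.mem_erase, Finset.mem_union, not_and, not_or]
    exact fun _ => ⟨hx2, fun h' => hxT (hT B2 hB2 h')⟩
  · have hxT : x ∈ T.E.erase q := Finset.mem_erase.2 ⟨hxq, hT B hB h⟩
    have hxS : x ∉ S.E := fun h' =>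
      (Finset.disjoint_left.1 hd) (Finset.mem_erase.2 ⟨hxq, h'⟩) hxT
    obtain ⟨A1, hA1, hq1⟩ := pT B hB
    obtain ⟨A2, hA2, hq2⟩ := pT B' hB'
    refine ⟨⟨(A1 ∪ B).erase q, mem_tsum.2 ⟨A1, hA1, B, hB, hq1, rfl⟩,
      Finset.mem_erase.2 ⟨hxq, Finset.mem_union_right _ h⟩⟩,
      ⟨(A2 ∪ B').erase q, mem_tsum.2 ⟨A2, hA2, B', hB', hq2, rfl⟩, ?_⟩⟩
    rw [Finset.mem_erase, Finset.mem_union, not_and, not_or]
    exact fun _ => ⟨fun h' => hxS (hE A2 (hsub hA2) h'), hxJ'.2⟩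

theorem alive_of_powersetCard {N : Net} {l : List ℕ} {r : ℕ} (hl : l.Nodup)
    (hM : N.M = l.toFinset.powersetCard r) (h1 : 1 ≤ r) (h2 : r < l.length) {x : ℕ}
    (hx : x ∈ l) : N.Alive x := by
  have hc : l.toFinset.card = l.length := List.toFinset_card_of_nodup hl
  have hx' : x ∈ l.toFinset := List.mem_toFinset.2 hx
  constructor
  · obtain ⟨u, hu1, hu2, hu3⟩ := Finset.exists_subsuperset_card_eq (n := r)
      (Finset.singleton_subset_iff.2 hx') (by rw [Finset.card_singleton]; exact h1)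
      (by rw [hc]; exact h2.le)
    refine ⟨u, ?_, hu1 (Finset.mem_singleton_self x)⟩
    rw [hM, Finset.mem_powersetCard]
    exact ⟨hu2, hu3⟩
  · obtain ⟨u, hu1, hu2⟩ := Finset.exists_subset_card_eq
      (s := l.toFinset.erase x) (n := r) (by rw [Finset.card_erase_of_mem hx', hc]; omega)
    refine ⟨u, ?_, fun h => (Finset.mem_erase.1 (hu1 h)).1 rfl⟩
    rw [hM, Finset.mem_powersetCard]
    exact ⟨hu1.trans (Finset.erase_subset _ _), hu2⟩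

theorem tsum_alive_left {S T : Net} {q x : ℕ} (hT : ∀ I ∈ T.M, I ⊆ T.E) (hx : S.Alive x)
    (hq : T.Alive q) (hxq : x ≠ q) (hxT : x ∉ T.E) : (Net.tsum S T q).Alive x := by
  obtain ⟨⟨B1, hB1, hq1⟩, ⟨B2, hB2, hq2⟩⟩ := hq
  have p : ∀ A ∈ S.M, ∃ B ∈ T.M, (q ∈ A ∧ q ∉ B) ∨ (q ∉ A ∧ q ∈ B) := by
    intro A _
    by_cases hqA : q ∈ A
    · exact ⟨B2, hB2, Or.inl ⟨hqA, hq2⟩⟩
    · exact ⟨B1, hB1, Or.inr ⟨hqA, hq1⟩⟩
  obtain ⟨⟨A1, hA1, hx1⟩, ⟨A2, hA2, hx2⟩⟩ := hx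
  obtain ⟨B, hB, h⟩ := p A1 hA1
  obtain ⟨B', hB', h'⟩ := p A2 hA2
  refine ⟨⟨(A1 ∪ B).erase q, mem_tsum.2 ⟨A1, hA1, B, hB, h, rfl⟩,
    Finset.mem_erase.2 ⟨hxq, Finset.mem_union_left _ hx1⟩⟩,
    ⟨(A2 ∪ B').erase q, mem_tsum.2 ⟨A2, hA2, B', hB', h', rfl⟩, ?_⟩⟩
  rw [Finset.mem_erase, Finset.mem_union, not_and, not_or]
  exact fun _ => ⟨hx2, fun h' => hxT (hT B' hB' h')⟩

theorem ctxF (hFacet : FacetStmt) (hWf : WfStmt) (hV : VtxGStmt) :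
    CtxFStmt := by
  refine ⟨?_, ?_⟩
  · intro C
    induction C with
    | hole =>
      intro N N' _ hf hal
      exact ⟨hf, hal⟩
    | dsumL C T ih =>
      intro N N' hval hf hal
      obtain ⟨h1, h2, h3⟩ : (C.app N).Valid ∧ T.Valid ∧ Disjoint (C.app N).E T.E := hval
      obtain ⟨i1, i2⟩ := ih N N' h1 hf hal
      obtain ⟨f1, f2, _, f4⟩ := hFacet _ _ h1 i1
      refine ⟨Net.Facet.dsumL _ _ _ i1, ?_⟩
      exact dsum_alive (hWf _ f1).1.nonempty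
        (fun I hI => by rw [← f2]; exact ((hWf _ f1).2 I hI).1)
        (fun I hI => ((hWf _ h1).2 I hI).1) (fun I hI => ((hWf _ h2).2 I hI).1) h3 i2
    | dsumR T C ih =>
      intro N N' hval hf hal
      obtain ⟨h1, h2, h3⟩ : T.Valid ∧ (C.app N).Valid ∧ Disjoint T.E (C.app N).E := hval
      obtain ⟨i1, i2⟩ := ih N N' h2 hf hal
      obtain ⟨f1, f2, _, f4⟩ := hFacet _ _ h2 i1
      refine ⟨Net.Facet.dsumR _ _ _ i1, ?_⟩
      intro x hx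
      rw [show (Ctx.dsumR T C).app N' = Net.dsum T (C.app N') from rfl,
        alive_congr (dsum_comm_M T (C.app N'))]
      rw [show (Ctx.dsumR T C).app N = Net.dsum T (C.app N) from rfl,
        alive_congr (dsum_comm_M T (C.app N))] at hx
      exact dsum_alive (hWf _ f1).1.nonempty
        (fun I hI => by rw [← f2]; exact ((hWf _ f1).2 I hI).1)
        (fun I hI => ((hWf _ h2).2 I hI).1) (fun I hI => ((hWf _ h1).2 I hI).1) h3.symm i2 x hx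
    | tsumL C T q ih =>
      intro N N' hval hf hal
      obtain ⟨h1, h2, h3, h4, h5, h6, h7, h8⟩ : (C.app N).Valid ∧ T.Valid ∧ 1 ≤ (C.app N).rk ∧
        1 ≤ T.rk ∧ q ∈ (C.app N).E ∧ q ∈ T.E ∧
        Disjoint ((C.app N).E.erase q) (T.E.erase q) ∧
        (((C.app N).Alive q ∧ T.Alive q) ∨ ((C.app N).Loop q ∧ T.Coloop q) ∨
          ((C.app N).Coloop q ∧ T.Loop q)) := hval
      obtain ⟨i1, i2⟩ := ih N N' h1 hf hal
      obtain ⟨f1, f2, _, f4⟩ := hFacet _ _ h1 i1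
      refine ⟨Net.Facet.tsumL _ _ _ _ (i2 q) i1, ?_⟩
      exact tsum_alive (hWf _ f1).1.nonempty (hWf _ h2).1.nonempty f4.1
        (fun I hI => ((hWf _ h1).2 I hI).1) (fun I hI => ((hWf _ h2).2 I hI).1) h7 h8 i2
    | tsumR T C q ih =>
      intro N N' hval hf hal
      obtain ⟨h1, h2, h3, h4, h5, h6, h7, h8⟩ : T.Valid ∧ (C.app N).Valid ∧ 1 ≤ T.rk ∧
        1 ≤ (C.app N).rk ∧ q ∈ T.E ∧ q ∈ (C.app N).E ∧
        Disjoint (T.E.erase q) ((C.app N).E.erase q) ∧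
        ((T.Alive q ∧ (C.app N).Alive q) ∨ (T.Loop q ∧ (C.app N).Coloop q) ∨
          (T.Coloop q ∧ (C.app N).Loop q)) := hval
      obtain ⟨i1, i2⟩ := ih N N' h2 hf hal
      obtain ⟨f1, f2, _, f4⟩ := hFacet _ _ h2 i1
      refine ⟨Net.Facet.tsumR _ _ _ _ (i2 q) i1, ?_⟩
      intro x hx
      rw [show (Ctx.tsumR T C q).app N' = Net.tsum T (C.app N') q from rfl,
        alive_congr (tsum_comm_M T (C.app N') q)]
      rw [show (Ctx.tsumR T C q).app N = Net.tsum T (C.app N) q from rfl,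
        alive_congr (tsum_comm_M T (C.app N) q)] at hx
      refine tsum_alive (hWf _ f1).1.nonempty (hWf _ h1).1.nonempty f4.1
        (fun I hI => ((hWf _ h2).2 I hI).1) (fun I hI => ((hWf _ h1).2 I hI).1) h7.symm ?_ i2 x hx
      rcases h8 with h | h | h
      · exact Or.inl ⟨h.2, h.1⟩
      · exact Or.inr (Or.inr ⟨h.2, h.1⟩)
      · exact Or.inr (Or.inl ⟨h.2, h.1⟩)
  · intro l r N' hval hf x hx
    cases hf with
    | gen L A R ρ q d r SA SB hq hA hB =>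
      obtain ⟨hnd, hr1, hr2⟩ : (L ++ A ++ R ++ [ρ]).Nodup ∧ 2 ≤ d + r ∧
        d + r + 2 ≤ (L ++ A ++ R ++ [ρ]).length := hval
      have hxl : x ∈ L ++ A ++ R ++ [ρ] := by
        obtain ⟨⟨I, hI, hxI⟩, _⟩ := hx
        have hI' : I ∈ (L ++ A ++ R ++ [ρ]).toFinset.powersetCard (d + r) := hI
        exact List.mem_toFinset.1 ((Finset.mem_powersetCard.1 hI').1 hxI)
      simp only [List.nodup_append, List.mem_append, List.mem_singleton, List.nodup_cons,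
        List.not_mem_nil, not_false_eq_true, List.nodup_nil, and_true, true_and,
        not_or] at hnd hq hxl
      have hndA : (A ++ [q]).Nodup := by
        rw [List.nodup_append]
        refine ⟨hnd.1.1.2.1, List.nodup_singleton _, ?_⟩
        intro a ha b hb
        rw [List.mem_singleton] at hb
        rintro rfl
        subst hb
        exact hq.1.1.2 ha
      have hndB : (L ++ [q] ++ R ++ [ρ]).Nodup := by
        simp only [List.nodup_append, List.mem_append, List.mem_singleton, List.nodup_cons,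
          List.not_mem_nil, not_false_eq_true, List.nodup_nil, and_true, true_and]
        obtain ⟨⟨⟨⟨nL, nA, nLA⟩, nR, nLAR⟩, nρ⟩, _⟩ := And.intro hnd trivial
        refine ⟨⟨⟨nL, ?_⟩, nR, ?_⟩, ?_⟩
        · rintro a ha b rfl rfl
          exact hq.1.1.1 ha
        · rintro a (ha | ha) b hb rfl
          · exact nLAR a (Or.inl ha) a hb rfl
          · subst ha
            exact hq.1.2 hb
        · rintro a ((ha | ha) | ha) b rfl rfl
          · exact nρ a (Or.inl (Or.inl ha)) a rfl rfl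
          · subst ha
            exact hq.2 rfl
          · exact nρ a (Or.inr ha) a rfl rfl
      obtain ⟨⟨gA, vA⟩, _, a1, a2, a3, _⟩ := hV _ _ _ hA hndA
      obtain ⟨⟨gB, vB⟩, _, b1, b2, b3, _⟩ := hV _ _ _ hB hndB
      have aliveA : ∀ y ∈ A ++ [q], SA.Alive y := fun y hy =>
        alive_of_powersetCard hndA vA.2.1 a1 a2 hy
      have aliveB : ∀ y ∈ L ++ [q] ++ R ++ [ρ], SB.Alive y := fun y hy =>
        alive_of_powersetCard hndB vB.2.1 b1 b2 hy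
      have subA : ∀ I ∈ SA.M, I ⊆ SA.E := by
        intro I hI
        rw [vA.2.1] at hI
        rw [vA.2.2.1]
        exact (Finset.mem_powersetCard.1 hI).1
      have subB : ∀ I ∈ SB.M, I ⊆ SB.E := by
        intro I hI
        rw [vB.2.1] at hI
        rw [vB.2.2.1]
        exact (Finset.mem_powersetCard.1 hI).1
      have hxq : x ≠ q := by
        rintro rfl
        rcases hxl with ((h | h) | h) | h
        · exact hq.1.1.1 h
        · exact hq.1.1.2 h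
        · exact hq.1.2 h
        · exact hq.2 h
      obtain ⟨⟨⟨nL, nA, nLA⟩, nR, nLAR⟩, nρ⟩ := hnd
      by_cases hxA : x ∈ A
      · apply tsum_alive_left subB (aliveA x (List.mem_append_left _ hxA))
          (aliveB q (by simp)) hxq
        rw [vB.2.2.1, List.mem_toFinset]
        simp only [List.mem_append, List.mem_singleton]
        rintro (((h | h) | h) | h)
        · exact nLA x h x hxA rfl
        · exact hxq h
        · exact nLAR x (Or.inr hxA) x h rfl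
        · exact nρ x (Or.inl (Or.inr hxA)) ρ rfl h
      · rw [alive_congr (tsum_comm_M SA SB q)]
        have hxB : x ∈ L ++ [q] ++ R ++ [ρ] := by
          simp only [List.mem_append, List.mem_singleton]
          rcases hxl with ((h | h) | h) | h
          · exact Or.inl (Or.inl (Or.inl h))
          · exact absurd h hxA
          · exact Or.inl (Or.inr h)
          · exact Or.inr h
        apply tsum_alive_left subA (aliveB x hxB)
          (aliveA q (by simp)) hxq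
        rw [vA.2.2.1, List.mem_toFinset]
        simp only [List.mem_append, List.mem_singleton]
        rintro (h | h)
        · exact hxA h
        · exact hxq h

end ABCT.H72
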