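import Pool.Agent.Helper32_ABCT.EStmts

/-!
# CTXM: contexts depend only on the label set, the rank and the bases (MP_a17fcb_ag, part E)
-/

namespace ABCT.H72

open ABCT Net

theorem alive_congr {S S' : Net} (h : S.M = S'.M) (q : ℕ) : S.Alive q ↔ S'.Alive q := by
  unfold Net.Alive; rw [h]

theorem loop_congr {S S' : Net} (h : S.M = S'.M) (q : ℕ) : S.Loop q ↔ S'.Loop q := by
  unfold Net.Loop; rw [h]

theorem coloop_congr {S S' : Net} (h : S.M = S'.M) (q : ℕ) : S.Coloop q ↔ S'.Coloop q := by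
  unfold Net.Coloop; rw [h]

theorem ctxM : CtxMStmt := by
  intro C
  induction C with
  | hole =>
    intro N N' hE hr
    exact ⟨hE, hr, id, fun _ h _ => h, id⟩
  | dsumL C T ih =>
    intro N N' hE hr
    obtain ⟨i1, i2, i3, i4, i5⟩ := ih N N' hE hr
    refine ⟨?_, ?_, ?_, ?_, ?_⟩
    · show (C.app N).E ∪ T.E = (C.app N').E ∪ T.E
      rw [i1]
    · show (C.app N).rk + T.rk = (C.app N').rk + T.rk
      rw [i2]
    · intro hM
      show ((C.app N).M ×ˢ T.M).image (fun p => p.1 ∪ p.2) =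
        ((C.app N').M ×ˢ T.M).image (fun p => p.1 ∪ p.2)
      rw [i3 hM]
    · rintro hM hV ⟨h1, h2, h3⟩
      exact ⟨i4 hM hV h1, h2, i1 ▸ h3⟩
    · rintro ⟨h1, _, _⟩
      exact i5 h1
  | dsumR T C ih =>
    intro N N' hE hr
    obtain ⟨i1, i2, i3, i4, i5⟩ := ih N N' hE hr
    refine ⟨?_, ?_, ?_, ?_, ?_⟩
    · show T.E ∪ (C.app N).E = T.E ∪ (C.app N').E
      rw [i1]
    · show T.rk + (C.app N).rk = T.rk + (C.app N').rk
      rw [i2]
    · intro hM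
      show (T.M ×ˢ (C.app N).M).image (fun p => p.1 ∪ p.2) =
        (T.M ×ˢ (C.app N').M).image (fun p => p.1 ∪ p.2)
      rw [i3 hM]
    · rintro hM hV ⟨h1, h2, h3⟩
      exact ⟨h1, i4 hM hV h2, i1 ▸ h3⟩
    · rintro ⟨_, h1, _⟩
      exact i5 h1
  | tsumL C T q ih =>
    intro N N' hE hr
    obtain ⟨i1, i2, i3, i4, i5⟩ := ih N N' hE hr
    refine ⟨?_, ?_, ?_, ?_, ?_⟩
    · show (C.app N).E.erase q ∪ T.E.erase q = (C.app N').E.erase q ∪ T.E.erase q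
      rw [i1]
    · show (C.app N).rk + T.rk - 1 = (C.app N').rk + T.rk - 1
      rw [i2]
    · intro hM
      show (((C.app N).M ×ˢ T.M).filter
        fun p => (q ∈ p.1 ∧ q ∉ p.2) ∨ (q ∉ p.1 ∧ q ∈ p.2)).image (fun p => (p.1 ∪ p.2).erase q) =
        (((C.app N').M ×ˢ T.M).filter
        fun p => (q ∈ p.1 ∧ q ∉ p.2) ∨ (q ∉ p.1 ∧ q ∈ p.2)).image (fun p => (p.1 ∪ p.2).erase q)
      rw [i3 hM]
    · rintro hM hV ⟨h1, h2, h3, h4, h5, h6, h7, h8⟩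
      refine ⟨i4 hM hV h1, h2, i2 ▸ h3, h4, i1 ▸ h5, h6, i1 ▸ h7, ?_⟩
      rw [← alive_congr (i3 hM), ← loop_congr (i3 hM), ← coloop_congr (i3 hM)]
      exact h8
    · rintro ⟨h1, _⟩
      exact i5 h1
  | tsumR T C q ih =>
    intro N N' hE hr
    obtain ⟨i1, i2, i3, i4, i5⟩ := ih N N' hE hr
    refine ⟨?_, ?_, ?_, ?_, ?_⟩
    · show T.E.erase q ∪ (C.app N).E.erase q = T.E.erase q ∪ (C.app N').E.erase q
      rw [i1]
    · show T.rk + (C.app N).rk - 1 = T.rk + (C.app N').rk - 1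
      rw [i2]
    · intro hM
      show ((T.M ×ˢ (C.app N).M).filter
        fun p => (q ∈ p.1 ∧ q ∉ p.2) ∨ (q ∉ p.1 ∧ q ∈ p.2)).image (fun p => (p.1 ∪ p.2).erase q) =
        ((T.M ×ˢ (C.app N').M).filter
        fun p => (q ∈ p.1 ∧ q ∉ p.2) ∨ (q ∉ p.1 ∧ q ∈ p.2)).image (fun p => (p.1 ∪ p.2).erase q)
      rw [i3 hM]
    · rintro hM hV ⟨h1, h2, h3, h4, h5, h6, h7, h8⟩
      refine ⟨h1, i4 hM hV h2, h3, i2 ▸ h4, h5, i1 ▸ h6, i1 ▸ h7, ?_⟩
      rw [← alive_congr (i3 hM), ← loop_congr (i3 hM), ← coloop_congr (i3 hM)]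
      exact h8
    · rintro ⟨_, h1, _⟩
      exact i5 h1

end ABCT.H72
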